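import Mathlib

set_option autoImplicit false

namespace Pool.Agent.BicHopf

/-- A matched pair of groups `(F, L)`: a right action `r s x = s ◁ x` of `L` on the set `F` and a
left action `l s x = s ▷ x` of `F` on the set `L` with
`s ▷ (x y) = (s ▷ x) ((s ◁ x) ▷ y)` and `(s t) ◁ x = (s ◁ (t ▷ x)) (t ◁ x)`. -/
structure MatchedPair (F L : Type) [Group F] [Group L] where
  /-- `s ◁ x` -/
  r : F → L → F
  /-- `s ▷ x` -/
  l : F → L → L
  r_one : ∀ s, r s 1 = s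
  r_mul : ∀ s x y, r s (x * y) = r (r s x) y
  l_one : ∀ x, l 1 x = x
  l_mul : ∀ s t x, l (s * t) x = l s (l t x)
  l_mul_right : ∀ s x y, l s (x * y) = l s x * l (r s x) y
  r_mul_left : ∀ s t x, r (s * t) x = r s (l t x) * r t x

/-- A matched pair with a pair `(σ, τ)` of normalized 2-cocycles satisfying the compatibility
condition, with values in the units of `k`: the data of a bicrossed product
`k^F #_{σ,τ} kL`. -/
structure Datum (k F L : Type) [Field k] [Group F] [Group L] extends MatchedPair F L where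
  /-- `σ_s(x, y)` -/
  σ : F → L → L → kˣ
  /-- `τ_x(s, t)` -/
  τ : L → F → F → kˣ
  σ_one_left : ∀ s x, σ s 1 x = 1
  σ_one_right : ∀ s x, σ s x 1 = 1
  σ_one : ∀ x y, σ 1 x y = 1
  τ_one_left : ∀ x s, τ x 1 s = 1
  τ_one_right : ∀ x s, τ x s 1 = 1
  τ_one : ∀ s t, τ 1 s t = 1
  σ_cocycle : ∀ s x y z, σ s x y * σ s (x * y) z = σ (r s x) y z * σ s x (y * z)
  τ_cocycle : ∀ x s t u, τ x (s * t) u * τ (l u x) s t = τ x s (t * u) * τ x t u
  compat : ∀ s t x y, σ (s * t) x y * τ (x * y) s t =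
    σ s (l t x) (l (r t x) y) * σ t x y * (τ x s t * τ y (r s (l t x)) (r t x))

namespace MatchedPair

variable {F L : Type} [Group F] [Group L] (M : MatchedPair F L)

@[simp] lemma l_one' (x : L) : M.l 1 x = x := M.l_one x
@[simp] lemma r_one' (s : F) : M.r s 1 = s := M.r_one s

@[simp] lemma l_unit (s : F) : M.l s 1 = 1 := by
  have h := M.l_mul_right s 1 1
  simpa using h

@[simp] lemma r_unit (x : L) : M.r 1 x = 1 := by
  have h := M.r_mul_left 1 1 x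
  simpa using h

lemma l_inv_l (s : F) (x : L) : M.l s⁻¹ (M.l s x) = x := by
  rw [← M.l_mul]; simp

lemma l_l_inv (s : F) (x : L) : M.l s (M.l s⁻¹ x) = x := by
  rw [← M.l_mul]; simp

lemma r_inv_r (s : F) (x : L) : M.r (M.r s x) x⁻¹ = s := by
  rw [← M.r_mul]; simp

lemma r_r_inv (s : F) (x : L) : M.r (M.r s x⁻¹) x = s := by
  rw [← M.r_mul]; simp

lemma l_injective (s : F) : Function.Injective (M.l s) := fun x y h => by
  rw [← M.l_inv_l s x, h, M.l_inv_l]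

/-- `(s ▷ x)⁻¹ = (s ◁ x) ▷ x⁻¹` -/
lemma l_inv (s : F) (x : L) : M.l (M.r s x) x⁻¹ = (M.l s x)⁻¹ := by
  have h := M.l_mul_right s x x⁻¹
  rw [mul_inv_cancel, l_unit] at h
  exact (inv_eq_of_mul_eq_one_right h.symm).symm

/-- `(s ◁ x)⁻¹ = s⁻¹ ◁ (s ▷ x)` -/
lemma r_inv (s : F) (x : L) : M.r s⁻¹ (M.l s x) = (M.r s x)⁻¹ := by
  have h := M.r_mul_left s⁻¹ s x
  rw [inv_mul_cancel, r_unit] at h
  exact (inv_eq_of_mul_eq_one_left h.symm).symm

/-- `(s ◁ x)⁻¹ ▷ (s ▷ x)⁻¹ = x⁻¹` -/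
lemma l_inv_inv (s : F) (x : L) : M.l (M.r s x)⁻¹ (M.l s x)⁻¹ = x⁻¹ := by
  rw [← M.l_inv, M.l_inv_l]

/-- `(s ◁ x)⁻¹ ◁ (s ▷ x)⁻¹ = s⁻¹` -/
lemma r_inv_inv (s : F) (x : L) : M.r (M.r s x)⁻¹ (M.l s x)⁻¹ = s⁻¹ := by
  rw [← M.r_inv, M.r_inv_r]

/-- The transposed matched pair (written on the same groups by means of inversion). -/
def transpose : MatchedPair L F where
  r x s := (M.l s⁻¹ x⁻¹)⁻¹
  l x s := (M.r s⁻¹ x⁻¹)⁻¹
  r_one x := by simp
  r_mul x s t := by simp [mul_inv_rev, M.l_mul]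
  l_one s := by simp
  l_mul x y s := by simp [mul_inv_rev, M.r_mul]
  l_mul_right x s t := by
    simp only [mul_inv_rev, inv_inv, M.r_mul_left]
  r_mul_left x y s := by
    simp only [mul_inv_rev, inv_inv, M.l_mul_right]

end MatchedPair

namespace Datum

variable {k F L : Type} [Field k] [Group F] [Group L] (D : Datum k F L)

/-- `τ_{s ▷ x}(s, s⁻¹) = τ_x(s⁻¹, s)` -/
lemma τ_inv (s : F) (x : L) : D.τ (D.l s x) s s⁻¹ = D.τ x s⁻¹ s := by
  have h := D.τ_cocycle x s s⁻¹ s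
  simpa [D.τ_one_left, D.τ_one_right] using h

/-- `σ_s(x, x⁻¹) = σ_{s ◁ x}(x⁻¹, x)` -/
lemma σ_inv (s : F) (x : L) : D.σ s x x⁻¹ = D.σ (D.r s x) x⁻¹ x := by
  have h := D.σ_cocycle s x x⁻¹ x
  simpa [D.σ_one_left, D.σ_one_right] using h

/-- The transposed datum. -/
def transpose : Datum k L F where
  toMatchedPair := D.toMatchedPair.transpose
  σ x s t := D.τ x⁻¹ t⁻¹ s⁻¹
  τ s x y := D.σ s⁻¹ y⁻¹ x⁻¹
  σ_one_left x s := by simp [D.τ_one_right]
  σ_one_right x s := by simp [D.τ_one_left]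
  σ_one s t := by simp [D.τ_one]
  τ_one_left s x := by simp [D.σ_one_right]
  τ_one_right s x := by simp [D.σ_one_left]
  τ_one x y := by simp [D.σ_one]
  σ_cocycle x s t u := by
    have h := D.τ_cocycle x⁻¹ u⁻¹ t⁻¹ s⁻¹
    simp only [MatchedPair.transpose, mul_inv_rev, inv_inv] at *
    rw [mul_comm, ← h, mul_comm]
  τ_cocycle s x y z := by
    have h := D.σ_cocycle s⁻¹ z⁻¹ y⁻¹ x⁻¹
    simp only [MatchedPair.transpose, mul_inv_rev, inv_inv] at *
    rw [mul_comm, ← h, mul_comm]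
  compat x y s t := by
    have h := D.compat t⁻¹ s⁻¹ y⁻¹ x⁻¹
    simp only [MatchedPair.transpose, mul_inv_rev, inv_inv] at *
    rw [mul_comm, h]
    ac_rfl

end Datum

end Pool.Agent.BicHopf
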