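import Pool.Agent.Lib.MP_0d5e35_al.BicOmega

set_option autoImplicit false

namespace Pool.Agent.BicHopf

variable {k G : Type} [Field k] [Group G] [Fintype G] [DecidableEq G]

/-- normalized cochain -/
def IsNormalized (ω : G → G → G → kˣ) : Prop :=
  ∀ g h, ω 1 g h = 1 ∧ ω g 1 h = 1 ∧ ω g h 1 = 1

/-- `θ_g(x, y) = ω(g, x, y) ω(x, y, (xy)⁻¹ g (xy)) ω(x, x⁻¹ g x, y)⁻¹` -/
def theta (ω : G → G → G → kˣ) (g x y : G) : kˣ :=
  ω g x y * ω x y ((x * y)⁻¹ * g * (x * y)) * (ω x (x⁻¹ * g * x) y)⁻¹

/-- `E` is the underlying algebra of the twisted quantum double `D^ω(G)` of Dijkgraaf, Pasquier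
and Roche, with its standard basis `e (g, x)`. -/
structure IsTwistedDouble (ω : G → G → G → kˣ) (E : Type) [Ring E] [Algebra k E] where
  /-- the basis -/
  e : Module.Basis (G × G) k E
  mul : ∀ g x h y, e (g, x) * e (h, y) =
    if x⁻¹ * g * x = h then ((theta ω g x y : kˣ) : k) • e (g, x * y) else 0
  one : (1 : E) = ∑ g : G, e (g, 1)

namespace IsTwistedDouble

variable {ω : G → G → G → kˣ} {E : Type} [Ring E] [Algebra k E] (B : IsTwistedDouble ω E)

/-- the ribbon element `v = ∑_g e(g, g)` -/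
noncomputable def ribbon : E := ∑ g : G, B.e (g, g)

lemma pow_ribbon (n : ℕ) : B.ribbon ^ n = ∑ g : G, ((Om ω n g : kˣ) : k) • B.e (g, g ^ n) := by
  induction n with
  | zero =>
    rw [pow_zero, B.one]
    refine Finset.sum_congr rfl fun g _ => ?_
    simp [Om]
  | succ n ih =>
    rw [pow_succ, ih, ribbon, Finset.sum_mul_sum]
    refine Finset.sum_congr rfl fun g _ => ?_
    rw [Finset.sum_eq_single g]
    · rw [smul_mul_assoc, B.mul, if_pos (by group), smul_smul, pow_succ]
      congr 1
      have h1 : theta ω g (g ^ n) g = ω g (g ^ n) g := by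
        have e1 : (g ^ n * g)⁻¹ * g * (g ^ n * g) = g := by group
        have e2 : (g ^ n)⁻¹ * g * g ^ n = g := by group
        rw [theta, e1, e2, mul_inv_cancel_right]
      rw [h1, Om, Om, Finset.prod_range_succ]
      push_cast
      rfl
    · intro h _ hh
      rw [smul_mul_assoc, B.mul, if_neg, smul_zero]
      intro h2
      apply hh
      rw [← h2]
      group
    · intro h; exact absurd (Finset.mem_univ _) h

/-- the ribbon element of `D^ω(G)` has order dividing `|G|` if `G = F L` with `ω` trivial on `F`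
and `L`. -/
theorem ribbon_pow_card (F L : Subgroup G) (hFL : ∀ g : G, ∃ f ∈ F, ∃ l ∈ L, g = f * l)
    (hω : IsCocycle3 ω) (hF : TrivialOn ω F) (hL : TrivialOn ω L) :
    B.ribbon ^ Fintype.card G = 1 := by
  rw [pow_ribbon, B.one]
  refine Finset.sum_congr rfl fun g _ => ?_
  rw [pow_card_eq_one]
  have h1 := order_mul_dvd F L hFL hω hF hL g
  rw [Nat.card_eq_fintype_card] at h1
  obtain ⟨q, hq⟩ := h1
  have h2 : Om ω (Fintype.card G) g = 1 := by
    rw [hq]
    have h3 : ∀ m, Om ω (orderOf g * m) g = Om ω (orderOf g) g ^ m := by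
      intro m
      induction m with
      | zero => simp [Om]
      | succ m ih =>
        rw [Nat.mul_succ, Om, Finset.prod_range_add, pow_succ, ← ih, Om, Om]
        congr 1
        refine Finset.prod_congr rfl fun i _ => ?_
        rw [pow_add, pow_mul, pow_orderOf_eq_one, one_pow, one_mul]
    rw [mul_assoc, h3, pow_mul, pow_orderOf_eq_one, one_pow]
  rw [h2, Units.val_one, one_smul]

end IsTwistedDouble

end Pool.Agent.BicHopf
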