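import Pool.Agent.Lib.MP_0d5e35_al.BicMain

set_option autoImplicit false

open scoped TensorProduct

namespace Pool.Agent.BicHopf

/-- `H` is (isomorphic to) the bicrossed product `k^F #_{σ,τ} kL`: it has a basis
`b (s, x) = e_s # x` with the standard structure constants. -/
structure IsBicrossed {k F L : Type} [Field k] [Group F] [Group L] [Fintype F] [DecidableEq F]
    (D : Datum k F L) (H : Type) [Ring H] [HopfAlgebra k H] where
  /-- the basis `e_s # x` -/
  b : Module.Basis (F × L) k H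
  mul : ∀ s x t y, b (s, x) * b (t, y) =
    if D.r s x = t then (D.σ s x y : k) • b (s, x * y) else 0
  one : (1 : H) = ∑ s : F, b (s, 1)
  comul : ∀ s x, Coalgebra.comul (R := k) (b (s, x)) =
    ∑ t : F, (D.τ x t (t⁻¹ * s) : k) • (b (t, D.l (t⁻¹ * s) x) ⊗ₜ[k] b (t⁻¹ * s, x))
  counit : ∀ s x, Coalgebra.counit (R := k) (b (s, x)) = if s = 1 then 1 else 0

variable {k F L : Type} [Field k] [Group F] [Group L] [Fintype F] [DecidableEq F]
  {D : Datum k F L} {H : Type} [Ring H] [HopfAlgebra k H]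

namespace IsBicrossed

variable (B : IsBicrossed D H)

include B in
lemma conv_apply (f g : H →ₗ[k] H) (s : F) (x : L) :
    LinearMap.mul' k H (TensorProduct.map f g (Coalgebra.comul (R := k) (B.b (s, x)))) =
      ∑ t : F, (D.τ x t (t⁻¹ * s) : k) • (f (B.b (t, D.l (t⁻¹ * s) x)) * g (B.b (t⁻¹ * s, x))) := by
  rw [B.comul]
  simp [map_sum]

/-- the coefficient of the antipode -/
def c (D : Datum k F L) (p : F × L) : kˣ :=
  (D.τ (D.l p.1 p.2) p.1 p.1⁻¹ * D.σ (D.r p.1 p.2)⁻¹ (D.l p.1 p.2)⁻¹ (D.l p.1 p.2))⁻¹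

/-- the antipode on indices -/
def ix (D : Datum k F L) (p : F × L) : F × L := ((D.r p.1 p.2)⁻¹, (D.l p.1 p.2)⁻¹)

/-- the candidate antipode -/
noncomputable def S : H →ₗ[k] H := B.b.constr k fun p => (c D p : k) • B.b (ix D p)

lemma S_apply (p : F × L) : B.S (B.b p) = (c D p : k) • B.b (ix D p) := by
  simp [S]

omit [Fintype F] [DecidableEq F] in
lemma ix_ix (p : F × L) : ix D (ix D p) = p := by
  simp only [ix, MatchedPair.r_inv_inv, MatchedPair.l_inv_inv, inv_inv]

omit [Fintype F] [DecidableEq F] in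
lemma c_mul_c (p : F × L) : c D p * c D (ix D p) = 1 := by
  obtain ⟨s, x⟩ := p
  have h := D.compat s s⁻¹ (D.l s x) (D.l s x)⁻¹
  rw [mul_inv_cancel, mul_inv_cancel, D.σ_one, D.τ_one, MatchedPair.l_inv_l, MatchedPair.r_inv,
    MatchedPair.l_inv_inv, D.σ_inv s⁻¹, MatchedPair.r_inv] at h
  have h2 := D.τ_inv (D.r s x) x⁻¹
  rw [MatchedPair.l_inv] at h2
  rw [h2] at h
  simp only [c, ix, MatchedPair.r_inv_inv, MatchedPair.l_inv_inv, inv_inv]
  rw [← mul_inv, inv_eq_one]
  rw [one_mul] at h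
  rw [h]
  ac_rfl

lemma S_S : B.S ∘ₗ B.S = LinearMap.id := by
  refine B.b.ext fun p => ?_
  rw [LinearMap.comp_apply, S_apply, map_smul, S_apply, ix_ix, smul_smul, LinearMap.id_apply,
    ← Units.val_mul, c_mul_c, Units.val_one, one_smul]

lemma S_conv_id : LinearMap.mul' k H ∘ₗ TensorProduct.map B.S LinearMap.id ∘ₗ
      Coalgebra.comul (R := k) (A := H) =
    Algebra.linearMap k H ∘ₗ Coalgebra.counit (R := k) (A := H) := by
  refine B.b.ext fun p => ?_
  obtain ⟨s, x⟩ := p
  rw [LinearMap.comp_apply, LinearMap.comp_apply, B.conv_apply, LinearMap.comp_apply, B.counit]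
  have key : ∀ t : F, B.S (B.b (t, D.l (t⁻¹ * s) x)) * (LinearMap.id : H →ₗ[k] H) (B.b (t⁻¹ * s, x)) =
      if s = 1 then (((D.τ x t (t⁻¹ * s))⁻¹ : kˣ) : k) • B.b (D.r t⁻¹ x, 1) else 0 := by
    intro t
    have e1 : D.l t (D.l (t⁻¹ * s) x) = D.l s x := by
      rw [← D.l_mul, mul_inv_cancel_left]
    rw [S_apply, LinearMap.id_apply, smul_mul_assoc, ix, B.mul, MatchedPair.r_inv_inv]
    by_cases hs : s = 1
    · subst hs
      rw [if_pos rfl, if_pos (by simp), e1]
      simp only [mul_one, MatchedPair.l_one', inv_mul_cancel, c, MatchedPair.l_l_inv]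
      rw [smul_smul]
      have e2 : (D.r t (D.l t⁻¹ x))⁻¹ = D.r t⁻¹ x := by
        rw [← D.r_inv, MatchedPair.l_l_inv]
      rw [e2, ← Units.val_mul, mul_inv_rev, mul_comm (D.σ (D.r t⁻¹ x) x⁻¹ x)⁻¹,
        inv_mul_cancel_right]
    · rw [if_neg hs, if_neg, smul_zero]
      intro h
      exact hs (mul_eq_left.mp h.symm)
  simp only [key]
  by_cases hs : s = 1
  · subst hs
    simp only [if_true, map_one, Algebra.linearMap_apply]
    rw [B.one]
    have e3 : Function.Bijective (fun t : F => D.r t⁻¹ x) := by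
      rw [← Finite.injective_iff_bijective]
      intro t t' h
      have h' : D.r t⁻¹ x = D.r t'⁻¹ x := h
      rw [← inv_inj, ← MatchedPair.r_inv_r D.toMatchedPair t⁻¹ x, h', MatchedPair.r_inv_r]
    rw [← Function.Bijective.sum_comp e3 (fun s => B.b (s, 1))]
    refine Finset.sum_congr rfl fun t _ => ?_
    rw [smul_smul, ← Units.val_mul, mul_inv_cancel, Units.val_one, one_smul]
  · simp [hs]

lemma antipode_eq : HopfAlgebra.antipode k (A := H) = B.S := by
  have h1 : WithConv.toConv B.S * WithConv.toConv (LinearMap.id (R := k) (M := H)) = 1 := by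
    have := B.S_conv_id
    rw [LinearMap.convMul_def, LinearMap.convOne_def]
    exact congrArg WithConv.toConv this
  have h2 : WithConv.toConv (LinearMap.id (R := k) (M := H)) *
      WithConv.toConv (HopfAlgebra.antipode k (A := H)) = 1 :=
    LinearMap.id_mul_antipode
  have h3 := left_inv_eq_right_inv h1 h2
  exact (WithConv.toConv_injective h3).symm

include B in
theorem antipode_sq : HopfAlgebra.antipode k (A := H) ∘ₗ HopfAlgebra.antipode k (A := H) =
    LinearMap.id := by
  rw [B.antipode_eq, S_S]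

end IsBicrossed

end Pool.Agent.BicHopf
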