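import Pool.Agent.Lib.MP_0d5e35_al.BicWeight

set_option autoImplicit false

namespace Pool.Agent.BicHopf

/-- number of elements as a sum of minimal periods -/
lemma card_eq_sum_period {X : Type} [Fintype X] (f : X → X) (hf : Function.Injective f) :
    ∃ (ι : Type) (_ : Fintype ι) (p : ι → X),
      Fintype.card X = ∑ i : ι, Function.minimalPeriod f (p i) := by
  classical
  have hb : Function.Bijective f := Finite.injective_iff_bijective.mp hf
  let e : Equiv.Perm X := Equiv.ofBijective f hb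
  let G := Subgroup.zpowers e
  let I : Fintype (MulAction.orbitRel.Quotient G X) := Fintype.ofFinite _
  let J : ∀ ω : MulAction.orbitRel.Quotient G X, Fintype (MulAction.orbit G ω.out) :=
    fun ω => Fintype.ofFinite _
  refine ⟨MulAction.orbitRel.Quotient G X, I, fun ω => ω.out, ?_⟩
  have h1 : Fintype.card X = Fintype.card (Σ ω : MulAction.orbitRel.Quotient G X,
      MulAction.orbit G ω.out) := Fintype.card_congr (MulAction.selfEquivSigmaOrbits G X)
  rw [h1, Fintype.card_sigma]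
  refine Finset.sum_congr rfl fun ω _ => ?_
  have h2 := MulAction.minimalPeriod_eq_card (a := e) (b := ω.out)
  have h3 : (fun x => e • x) = f := by
    ext x; rfl
  rw [h3] at h2
  rw [h2]

lemma dvd_card_mul {X Y : Type} [Fintype X] [Fintype Y] (f : X → X) (g : Y → Y)
    (hf : Function.Injective f) (hg : Function.Injective g) (N : ℕ)
    (h : ∀ x y, N ∣ Function.minimalPeriod f x * Function.minimalPeriod g y) :
    N ∣ Fintype.card X * Fintype.card Y := by
  obtain ⟨ι, _, p, hp⟩ := card_eq_sum_period f hf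
  obtain ⟨κ, _, q, hq⟩ := card_eq_sum_period g hg
  rw [hp, hq, Finset.sum_mul_sum]
  exact Finset.dvd_sum fun i _ => Finset.dvd_sum fun j _ => h _ _

namespace Datum

variable {k F L : Type} [Field k] [Group F] [Group L] (D : Datum k F L)

/-- a cell as a cell of the transposed datum -/
def inv (z : F × L) : L × F := (z.2⁻¹, z.1⁻¹)

lemma step_inv (z : F × L) : D.transpose.step (inv (D.step z)) = inv z := by
  have h1 : D.transpose.r (inv (D.step z)).1 (inv (D.step z)).2 = z.2⁻¹ := by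
    show (D.l ((D.step z).1⁻¹)⁻¹ ((D.step z).2⁻¹)⁻¹)⁻¹ = _
    rw [inv_inv, inv_inv, MatchedPair.l_step]
  refine Prod.ext h1 ?_
  show D.transpose.l (D.transpose.r (inv (D.step z)).1 (inv (D.step z)).2)⁻¹
    (inv (D.step z)).2 = _
  rw [h1]
  show (D.r ((D.step z).1⁻¹)⁻¹ (z.2⁻¹⁻¹)⁻¹)⁻¹ = z.1⁻¹
  rw [inv_inv, inv_inv, MatchedPair.step_fst, MatchedPair.r_inv_r]

lemma step_iterate_inv (n i : ℕ) (z : F × L) :
    (D.transpose.step^[n]) (inv ((D.step^[n + i]) z)) = inv ((D.step^[i]) z) := by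
  induction n with
  | zero => simp
  | succ n ih =>
    have : n + 1 + i = (n + i) + 1 := by ring
    rw [Function.iterate_succ_apply, this, Function.iterate_succ_apply', step_inv, ih]

lemma Pr_inv (n : ℕ) (z : F × L) :
    D.transpose.Pr (n + 1) (inv ((D.step^[n]) z)) = (D.Qr (n + 1) z)⁻¹ := by
  induction n with
  | zero => simp [MatchedPair.Pr_succ, MatchedPair.Qr_succ, inv]
  | succ n ih =>
    rw [MatchedPair.Pr_succ, Function.iterate_succ_apply', step_inv, ih,
      MatchedPair.Qr_succ' D.toMatchedPair (n + 1), mul_inv_rev, Function.iterate_succ_apply']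
    rfl

lemma Qr_inv (n : ℕ) (z : F × L) :
    D.transpose.Qr (n + 1) (inv ((D.step^[n]) z)) = (D.Pr (n + 1) z)⁻¹ := by
  induction n with
  | zero => simp [MatchedPair.Pr_succ, MatchedPair.Qr_succ, inv]
  | succ n ih =>
    rw [MatchedPair.Qr_succ, Function.iterate_succ_apply', step_inv, ih,
      MatchedPair.Pr_succ' D.toMatchedPair (n + 1), mul_inv_rev, Function.iterate_succ_apply']
    rfl

lemma lx_inv (n : ℕ) (z : F × L) :
    D.transpose.lx (n + 1) (inv ((D.step^[n]) z)) = z.1⁻¹ := by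
  rw [MatchedPair.lx_succ']
  have := D.step_iterate_inv n 0 z
  rw [Nat.add_zero] at this
  rw [this]
  rfl

lemma wt_inv (n : ℕ) (z : F × L) :
    D.transpose.wt (n + 1) (inv ((D.step^[n]) z)) = D.wt (n + 1) z := by
  rw [D.wt_eq_wl]
  induction n with
  | zero =>
    simp [wt_succ, wt_zero, wl, D.τ_one_left, D.σ_one_left, D.transpose.τ_one_right,
      D.transpose.σ_one_right]
  | succ n ih =>
    rw [wt_succ, Function.iterate_succ_apply', step_inv, ih, lx_inv, Pr_inv, Qr_inv]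
    show D.σ (z.1⁻¹)⁻¹ ((D.Qr (n + 1) z)⁻¹)⁻¹ ((D.step ((D.step^[n]) z)).2⁻¹)⁻¹ *
      D.τ ((D.step ((D.step^[n]) z)).2⁻¹)⁻¹ ((D.Pr (n + 1) z)⁻¹)⁻¹
        ((D.step ((D.step^[n]) z)).1⁻¹)⁻¹ * D.wl (n + 1) z = _
    simp only [inv_inv]
    rw [← Function.iterate_succ_apply' D.step n z, wl.eq_def D (n + 2) z]
    ac_rfl

lemma closed_inv {n : ℕ} {z : F × L} (h : D.Closed n z) :
    D.transpose.Closed n (inv z) ∧ D.transpose.wt n (inv z) = D.wt n z := by
  obtain ⟨m, rfl⟩ : ∃ m, n = m + 1 := ⟨n - 1, by have := h.pos; omega⟩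
  have hs := D.closed_step h
  have e : (D.step^[m]) (D.step z) = z := by rw [← Function.iterate_succ_apply, h.per]
  refine ⟨⟨h.pos, ?_, ?_, ?_⟩, ?_⟩
  · have := D.Pr_inv m (D.step z)
    rw [e, hs.Q, inv_one] at this
    exact this
  · have := D.Qr_inv m (D.step z)
    rw [e, hs.P, inv_one] at this
    exact this
  · have := D.step_iterate_inv (m + 1) 0 z
    rw [Nat.add_zero, h.per] at this
    exact this
  · have := D.wt_inv m (D.step z)
    rw [e, D.wt_step h] at this
    exact this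

lemma T_inv (z : F × L) (u : F) : D.transpose.T (inv z) u = (D.Tr z u⁻¹)⁻¹ := by
  show ((D.r (z.1⁻¹)⁻¹ (z.2⁻¹)⁻¹)⁻¹)⁻¹ * (D.r u⁻¹ (z.2⁻¹)⁻¹)⁻¹ =
    (D.r u⁻¹ z.2 * (D.r z.1 z.2)⁻¹)⁻¹
  simp only [inv_inv, mul_inv_rev]

lemma T_inv_iterate (z : F × L) (m : ℕ) (u : F) :
    (D.transpose.T (inv z))^[m] u = ((D.Tr z)^[m] u⁻¹)⁻¹ := by
  induction m generalizing u with
  | zero => simp
  | succ m ih =>
    rw [Function.iterate_succ_apply, T_inv, ih, inv_inv, ← Function.iterate_succ_apply]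

lemma wt_pow' {n : ℕ} {z : F × L} (h : D.Closed n z) (l : ℕ) (V : F)
    (hV : (D.Tr z)^[l] V = V) : D.wt n z ^ l = 1 := by
  obtain ⟨h1, h2⟩ := D.closed_inv h
  rw [← h2]
  refine D.transpose.wt_pow h1 l V⁻¹ ?_
  rw [T_inv_iterate, inv_inv, hV]

/-- if both actions of `c ^ n` are trivial then the staircase is closed -/
lemma closed_of_trivial {n : ℕ} (hn : 0 < n) {z : F × L} (hT : ∀ a, (D.T z)^[n] a = a)
    (hTr : ∀ V, (D.Tr z)^[n] V = V) : D.Closed n z := by
  have hQ : D.Qr n z = 1 := by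
    have h1 := D.l_Pr_step n z (D.Qr n z)
    rw [inv_mul_cancel, MatchedPair.l_unit, hT] at h1
    exact h1.symm
  have hP' : D.Pr n (D.step z) = 1 := by
    have h1 := D.Tr_iterate n z 1
    rw [hTr, MatchedPair.r_unit, one_mul] at h1
    exact inv_eq_one.mp h1.symm
  have h1 : ((D.step^[n]) z).1 = z.1 := by
    rw [← D.r_Qr, hQ, MatchedPair.r_one']
  have h2 : ((D.step^[n]) z).2 = z.2 := by
    have h3 := D.l_Pr n (D.step z)
    rw [hP', MatchedPair.l_one', MatchedPair.l_step, ← MatchedPair.lx_succ,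
      MatchedPair.lx_succ'] at h3
    exact h3
  have hper : (D.step^[n]) z = z := Prod.ext h1 h2
  refine ⟨hn, ?_, hQ, hper⟩
  have h3 := D.Pr_succ n z
  rw [MatchedPair.Pr_succ', hP', mul_one, h1] at h3
  exact mul_eq_right.mp h3

/-- the order of the class of the cell: a closed staircase whose length times the order of the
weight divides `|F| |L|`. -/
theorem exists_closed [Fintype F] [Fintype L] (z : F × L) :
    ∃ n, D.Closed n z ∧ ∃ q, Fintype.card L * Fintype.card F = n * q ∧ D.wt n z ^ q = 1 := by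
  have hper : ∀ a, 0 < Function.minimalPeriod (D.T z) a := fun a =>
    Function.minimalPeriod_pos_of_mem_periodicPts
      ((D.T_injective z).mem_periodicPts a)
  have hper' : ∀ V, 0 < Function.minimalPeriod (D.Tr z) V := fun V =>
    Function.minimalPeriod_pos_of_mem_periodicPts
      ((D.Tr_injective z).mem_periodicPts V)
  have fixall : ∀ m a V, (D.T z)^[m] a = a → (D.Tr z)^[m] V = V →
      (∀ b, (D.T z)^[m] b = b) ∧ ∀ U, (D.Tr z)^[m] U = U := fun m a V h1 h2 =>
    D.rep_fix (D.rep_iterate z m) h1 h2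
  set n := Nat.lcm (Function.minimalPeriod (D.T z) 1) (Function.minimalPeriod (D.Tr z) 1)
    with hn
  have hn0 : 0 < n := Nat.lcm_pos (hper 1) (hper' 1)
  have h1 : (D.T z)^[n] 1 = 1 :=
    Function.isPeriodicPt_iff_minimalPeriod_dvd.mpr (Nat.dvd_lcm_left _ _)
  have h2 : (D.Tr z)^[n] 1 = 1 :=
    Function.isPeriodicPt_iff_minimalPeriod_dvd.mpr (Nat.dvd_lcm_right _ _)
  obtain ⟨h3, h4⟩ := fixall n 1 1 h1 h2
  have hc := D.closed_of_trivial hn0 h3 h4
  have hdvd : n * orderOf (D.wt n z) ∣ Fintype.card L * Fintype.card F := by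
    refine dvd_card_mul (D.T z) (D.Tr z) (D.T_injective z) (D.Tr_injective z) _ fun a V => ?_
    set la := Function.minimalPeriod (D.T z) a
    set lV := Function.minimalPeriod (D.Tr z) V
    have e1 : (D.T z)^[la] a = a := Function.isPeriodicPt_minimalPeriod _ _
    have e2 : (D.Tr z)^[lV] V = V := Function.isPeriodicPt_minimalPeriod _ _
    have d1 : orderOf (D.wt n z) ∣ la := orderOf_dvd_of_pow_eq_one (D.wt_pow hc la a e1)
    have d2 : orderOf (D.wt n z) ∣ lV := orderOf_dvd_of_pow_eq_one (D.wt_pow' hc lV V e2)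
    have e3 : (D.T z)^[Nat.lcm la lV] a = a :=
      Function.isPeriodicPt_iff_minimalPeriod_dvd.mpr (Nat.dvd_lcm_left _ _)
    have e4 : (D.Tr z)^[Nat.lcm la lV] V = V :=
      Function.isPeriodicPt_iff_minimalPeriod_dvd.mpr (Nat.dvd_lcm_right _ _)
    obtain ⟨e5, e6⟩ := fixall _ a V e3 e4
    have d3 : n ∣ Nat.lcm la lV := Nat.lcm_dvd
      (Function.isPeriodicPt_iff_minimalPeriod_dvd.mp (e5 1))
      (Function.isPeriodicPt_iff_minimalPeriod_dvd.mp (e6 1))
    rw [← Nat.gcd_mul_lcm la lV, mul_comm n]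
    exact Nat.mul_dvd_mul (Nat.dvd_gcd d1 d2) d3
  obtain ⟨q, hq⟩ := hdvd
  refine ⟨n, hc, orderOf (D.wt n z) * q, by rw [hq, mul_assoc], ?_⟩
  rw [pow_mul, pow_orderOf_eq_one, one_pow]

/-- the staircases of length `|F| |L|` -/
theorem full [Fintype F] [Fintype L] (z : F × L) :
    D.Pr (Fintype.card L * Fintype.card F) z = 1 ∧
    D.Qr (Fintype.card L * Fintype.card F) z = 1 ∧
    D.lx (Fintype.card L * Fintype.card F) z = D.l z.1 z.2 ∧
    D.wt (Fintype.card L * Fintype.card F) z = 1 := by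
  obtain ⟨n, hc, q, hq, hw⟩ := D.exists_closed z
  obtain ⟨h1, h2, h3, h4⟩ := D.closed_mul hc q
  rw [hq]
  refine ⟨h1, h2, ?_, by rw [h4, hw]⟩
  rw [MatchedPair.lx, h3]

end Datum

end Pool.Agent.BicHopf
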