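import Pool.Agent.Lib.MP_0d5e35_al.BicMain

set_option autoImplicit false

namespace Pool.Agent.BicHopf

variable {G A : Type} [Group G] [CommGroup A]

/-- (possibly unnormalized) 3-cocycles of `G` with trivial action on `A` -/
def IsCocycle3 (ω : G → G → G → A) : Prop :=
  ∀ g h i j, ω h i j * ω g (h * i) j * ω g h i = ω (g * h) i j * ω g h (i * j)

/-- `ω` restricted to the subgroup `F` is a coboundary -/
def TrivialOn (ω : G → G → G → A) (F : Subgroup G) : Prop :=
  ∃ α : F → F → A, ∀ f g h : F,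
    ω f g h = α g h * α f (g * h) * (α (f * g) h)⁻¹ * (α f g)⁻¹

/-- `Ω_n(c) = ∏_{j<n} ω(c, c^j, c)` -/
def Om (ω : G → G → G → A) (n : ℕ) (c : G) : A := ∏ j ∈ Finset.range n, ω c (c ^ j) c

lemma prod_pow_shift (g : G → A) (c : G) (n : ℕ) (h : c ^ n = 1) :
    ∏ j ∈ Finset.range n, g (c ^ (j + 1)) = ∏ j ∈ Finset.range n, g (c ^ j) := by
  have h1 := Finset.prod_range_succ (fun j => g (c ^ j)) n
  have h2 := Finset.prod_range_succ' (fun j => g (c ^ j)) n
  rw [h1, h, pow_zero] at h2
  exact (mul_right_cancel h2).symm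

variable {ω : G → G → G → A}

lemma Psi_c (hω : IsCocycle3 ω) (c : G) (n : ℕ) (hn : c ^ n = 1) (y : G) :
    Om ω n c * ∏ j ∈ Finset.range n, ω c (c ^ j) y = ∏ j ∈ Finset.range n, ω c (c ^ j) (c * y) := by
  have h1 : ∀ j, ω (c ^ j) c y * ω c (c ^ (j + 1)) y * ω c (c ^ j) c =
      ω (c ^ (j + 1)) c y * ω c (c ^ j) (c * y) := by
    intro j
    have := hω c (c ^ j) c y
    rwa [← pow_succ, ← pow_succ'] at this
  have h2 := Finset.prod_congr (rfl : Finset.range n = Finset.range n) fun j _ => h1 j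
  simp only [Finset.prod_mul_distrib] at h2
  rw [prod_pow_shift (fun x => ω c x y) c n hn, prod_pow_shift (fun x => ω x c y) c n hn,
    mul_assoc] at h2
  have h3 := mul_left_cancel h2
  rw [Om, mul_comm, h3]

lemma Psi_f (hω : IsCocycle3 ω) (c : G) (n : ℕ) (hn : c ^ n = 1) (y f : G) :
    (∏ j ∈ Finset.range n, ω c (c ^ j * y) f) * ∏ j ∈ Finset.range n, ω c (c ^ j) y =
      ∏ j ∈ Finset.range n, ω c (c ^ j) (y * f) := by
  have h1 : ∀ j, ω (c ^ j) y f * ω c (c ^ j * y) f * ω c (c ^ j) y =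
      ω (c ^ (j + 1)) y f * ω c (c ^ j) (y * f) := by
    intro j
    have := hω c (c ^ j) y f
    rwa [← pow_succ'] at this
  have h2 := Finset.prod_congr (rfl : Finset.range n = Finset.range n) fun j _ => h1 j
  simp only [Finset.prod_mul_distrib] at h2
  rw [prod_pow_shift (fun x => ω x y f) c n hn, mul_assoc] at h2
  exact mul_left_cancel h2

lemma Psi_pow (hω : IsCocycle3 ω) (c : G) (n : ℕ) (hn : c ^ n = 1) (y : G) (l : ℕ) :
    Om ω n c ^ l * ∏ j ∈ Finset.range n, ω c (c ^ j) y =
      ∏ j ∈ Finset.range n, ω c (c ^ j) (c ^ l * y) := by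
  induction l with
  | zero => simp
  | succ l ih =>
    rw [pow_succ', mul_assoc, ih, Psi_c hω c n hn, pow_succ' c, mul_assoc]

lemma inner (hω : IsCocycle3 ω) (c u f : G) (m : ℕ) (hf : f ^ m = 1) :
    (∏ i ∈ Finset.range m, ω u (f ^ i) f) * ∏ i ∈ Finset.range m, ω c (u * f ^ i) f =
      ∏ i ∈ Finset.range m, ω (c * u) (f ^ i) f := by
  have h1 : ∀ i, ω u (f ^ i) f * ω c (u * f ^ i) f * ω c u (f ^ i) =
      ω (c * u) (f ^ i) f * ω c u (f ^ (i + 1)) := by
    intro i
    have := hω c u (f ^ i) f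
    rwa [← pow_succ] at this
  have h2 := Finset.prod_congr (rfl : Finset.range m = Finset.range m) fun j _ => h1 j
  simp only [Finset.prod_mul_distrib] at h2
  rw [prod_pow_shift (fun x => ω c u x) f m hf] at h2
  exact mul_right_cancel h2

lemma outer (hω : IsCocycle3 ω) (y f : G) (m : ℕ) (hf : f ^ m = 1) :
    Om ω m f * ∏ i ∈ Finset.range m, ω y (f ^ i) f = ∏ i ∈ Finset.range m, ω (y * f) (f ^ i) f := by
  have h1 : ∀ i, ω f (f ^ i) f * ω y (f ^ (i + 1)) f * ω y f (f ^ i) =
      ω (y * f) (f ^ i) f * ω y f (f ^ (i + 1)) := by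
    intro i
    have := hω y f (f ^ i) f
    rwa [← pow_succ, ← pow_succ'] at this
  have h2 := Finset.prod_congr (rfl : Finset.range m = Finset.range m) fun j _ => h1 j
  simp only [Finset.prod_mul_distrib] at h2
  rw [prod_pow_shift (fun x => ω y f x) f m hf, prod_pow_shift (fun x => ω y x f) f m hf] at h2
  exact mul_right_cancel h2

/-- restriction formula: if `c^l y = y f` and `n = l m` then `Ω_n(c)^l = Ω_m(f)`. -/
lemma Om_pow (hω : IsCocycle3 ω) (c y f : G) (l m : ℕ) (hn : c ^ (l * m) = 1)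
    (hf : c ^ l * y = y * f) : Om ω (l * m) c ^ l = Om ω m f := by
  have hfm : f ^ m = 1 := by
    have h1 : f = y⁻¹ * c ^ l * y := by rw [mul_assoc, hf, inv_mul_cancel_left]
    have h2 : f ^ m = y⁻¹ * (c ^ l) ^ m * y := by
      rw [h1]
      have := (conj_pow (i := m) (a := y⁻¹) (b := c ^ l))
      simpa using this
    rw [h2, ← pow_mul, hn, mul_one, inv_mul_cancel]
  have hfi : ∀ i, c ^ (l * i) * y = y * f ^ i := by
    intro i
    induction i with
    | zero => simp
    | succ i ih =>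
      rw [Nat.mul_succ, pow_add, mul_assoc, hf, ← mul_assoc, ih, mul_assoc, ← pow_succ]
  have h1 := Psi_pow hω c (l * m) hn y l
  rw [hf, ← Psi_f hω c (l * m) hn y f] at h1
  have h2 := mul_right_cancel h1
  rw [h2]
  -- regroup
  have h3 : ∏ j ∈ Finset.range (l * m), ω c (c ^ j * y) f =
      ∏ r ∈ Finset.range l, ∏ i ∈ Finset.range m, ω c (c ^ r * y * f ^ i) f := by
    rw [Finset.prod_comm]
    clear h1 h2 hn hfm
    induction m with
    | zero => simp
    | succ m ih =>
      rw [Nat.mul_succ, Finset.prod_range_add, ih, Finset.prod_range_succ]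
      congr 1
      refine Finset.prod_congr rfl fun r _ => ?_
      rw [Nat.add_comm, pow_add, mul_assoc (c ^ r), hfi, mul_assoc]
  rw [h3]
  have h4 : ∀ r, (∏ i ∈ Finset.range m, ω y (f ^ i) f) *
      ∏ s ∈ Finset.range r, ∏ i ∈ Finset.range m, ω c (c ^ s * y * f ^ i) f =
      ∏ i ∈ Finset.range m, ω (c ^ r * y) (f ^ i) f := by
    intro r
    induction r with
    | zero => simp
    | succ r ih =>
      rw [Finset.prod_range_succ, ← mul_assoc, ih, inner hω c (c ^ r * y) f m hfm, pow_succ',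
        mul_assoc]
  have h5 := h4 l
  rw [hf, ← outer hω y f m hfm, mul_comm] at h5
  exact mul_right_cancel h5

lemma Om_trivial {F : Subgroup G} (h : TrivialOn ω F) (f : G) (hf : f ∈ F) (m : ℕ)
    (hm : f ^ m = 1) : Om ω m f = 1 := by
  obtain ⟨α, hα⟩ := h
  set f' : F := ⟨f, hf⟩ with hf'
  have hm' : f' ^ m = 1 := by
    apply Subtype.ext
    simpa [hf'] using hm
  have h1 : ∀ i, ω f (f ^ i) f * (α (f' ^ (i + 1)) f' * α f' (f' ^ i)) =
      α (f' ^ i) f' * α f' (f' ^ (i + 1)) := by
    intro i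
    have := hα f' (f' ^ i) f'
    rw [← pow_succ, ← pow_succ'] at this
    have e : ω f (f ^ i) f = ω (f' : G) ((f' ^ i : F) : G) (f' : G) := by simp [hf']
    rw [e, this]
    rw [mul_assoc, mul_assoc, mul_assoc]
    simp [mul_comm]
  have h2 := Finset.prod_congr (rfl : Finset.range m = Finset.range m) fun j _ => h1 j
  simp only [Finset.prod_mul_distrib] at h2
  rw [prod_pow_shift (fun x => α x f') f' m hm', prod_pow_shift (fun x => α f' x) f' m hm'] at h2
  exact mul_eq_right.mp h2

lemma card_eq_of_product [Finite G] (F L : Subgroup G) (hFL : ∀ g : G, ∃ f ∈ F, ∃ l ∈ L, g = f * l) :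
    Nat.card G = Nat.card (G ⧸ F) * Nat.card (G ⧸ L) * Nat.card (F ⊓ L : Subgroup G) := by
  classical
  have := Fintype.ofFinite G
  have h0 := F.card_mul_index
  have h1 := MulAction.card_orbit_mul_card_stabilizer_eq_card_group F (((1 : G) : G ⧸ L))
  have h2 : Fintype.card (MulAction.orbit F (((1 : G) : G ⧸ L))) = Nat.card (G ⧸ L) := by
    rw [← Nat.card_eq_fintype_card]
    have e : MulAction.orbit F (((1 : G) : G ⧸ L)) = Set.univ := by
      rw [Set.eq_univ_iff_forall]
      intro x
      induction x using QuotientGroup.induction_on with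
      | _ g =>
        obtain ⟨f, hf, l, hl, rfl⟩ := hFL g
        refine ⟨⟨f, hf⟩, ?_⟩
        show ((f * 1 : G) : G ⧸ L) = ((f * l : G) : G ⧸ L)
        rw [QuotientGroup.eq]
        simpa using hl
    rw [e]
    exact Nat.card_congr (Equiv.Set.univ _)
  have h3 : Fintype.card (MulAction.stabilizer F (((1 : G) : G ⧸ L))) =
      Nat.card (F ⊓ L : Subgroup G) := by
    rw [← Nat.card_eq_fintype_card]
    have key : ∀ f : F, f ∈ MulAction.stabilizer F (((1 : G) : G ⧸ L)) ↔ (f : G) ∈ L := by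
      intro f
      rw [MulAction.mem_stabilizer_iff]
      show (((f : G) * 1 : G) : G ⧸ L) = ((1 : G) : G ⧸ L) ↔ _
      rw [QuotientGroup.eq, mul_one, mul_one, inv_mem_iff]
    refine Nat.card_congr ⟨fun f => ⟨f.1.1, f.1.2, (key f.1).mp f.2⟩,
      fun g => ⟨⟨g.1, g.2.1⟩, (key ⟨g.1, g.2.1⟩).mpr g.2.2⟩, fun f => rfl, fun g => rfl⟩
  rw [h2, h3, ← Nat.card_eq_fintype_card] at h1
  rw [← h0, ← h1]
  rw [Subgroup.index]
  ring

/-- the exponent of `Vec_G^ω` divides `|G|` as soon as `G = F L` and `ω` is trivial on `F` and on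
`L`. -/
theorem order_mul_dvd [Finite G] (F L : Subgroup G)
    (hFL : ∀ g : G, ∃ f ∈ F, ∃ l ∈ L, g = f * l) (hω : IsCocycle3 ω)
    (hF : TrivialOn ω F) (hL : TrivialOn ω L) (c : G) :
    orderOf c * orderOf (Om ω (orderOf c) c) ∣ Nat.card G := by
  classical
  have := Fintype.ofFinite G
  set n := orderOf c with hn
  set d := orderOf (Om ω n c) with hd
  -- periods on `G / E`
  have per : ∀ (E : Subgroup G), TrivialOn ω E → ∀ x : G ⧸ E,
      d ∣ Function.minimalPeriod (fun x : G ⧸ E => c • x) x := by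
    intro E hE x
    set l := Function.minimalPeriod (fun x : G ⧸ E => c • x) x with hl
    have e0 : ∀ j, (fun x : G ⧸ E => c • x)^[j] x = c ^ j • x := by
      intro j
      induction j with
      | zero => simp
      | succ j ih => rw [Function.iterate_succ_apply', ih, pow_succ', mul_smul]
    have e1 : c ^ l • x = x := by
      rw [← e0]; exact Function.isPeriodicPt_minimalPeriod _ _
    have e2 : l ∣ n := by
      refine Function.IsPeriodicPt.minimalPeriod_dvd ?_
      show (fun x : G ⧸ E => c • x)^[n] x = x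
      rw [e0, hn, pow_orderOf_eq_one, one_smul]
    obtain ⟨m, hm⟩ := e2
    induction x using QuotientGroup.induction_on with
    | _ y =>
      have e3 : y⁻¹ * (c ^ l * y) ∈ E := by
        have : ((c ^ l * y : G) : G ⧸ E) = (y : G ⧸ E) := e1
        rw [eq_comm, QuotientGroup.eq] at this
        exact this
      have e4 : c ^ l * y = y * (y⁻¹ * (c ^ l * y)) := by rw [mul_inv_cancel_left]
      have e5 : c ^ (l * m) = 1 := by rw [← hm, hn, pow_orderOf_eq_one]
      have e6 := Om_pow hω c y _ l m e5 e4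
      have e7 : (y⁻¹ * (c ^ l * y)) ^ m = 1 := by
        have h2 := (conj_pow (i := m) (a := y⁻¹) (b := c ^ l))
        rw [inv_inv, ← pow_mul, e5, mul_one, inv_mul_cancel] at h2
        rw [← mul_assoc]; exact h2
      rw [Om_trivial hE _ e3 m e7, ← hm] at e6
      exact orderOf_dvd_of_pow_eq_one e6
  have injF : Function.Injective (fun x : G ⧸ F => c • x) := MulAction.injective c
  have injL : Function.Injective (fun x : G ⧸ L => c • x) := MulAction.injective c
  rw [card_eq_of_product F L hFL, Nat.card_eq_fintype_card (α := G ⧸ F),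
    Nat.card_eq_fintype_card (α := G ⧸ L)]
  obtain ⟨ι, _, p, hp⟩ := card_eq_sum_period _ injF
  obtain ⟨κ, _, q, hq⟩ := card_eq_sum_period _ injL
  rw [hp, hq, Finset.sum_mul_sum, Finset.sum_mul]
  refine Finset.dvd_sum fun i _ => ?_
  rw [Finset.sum_mul]
  refine Finset.dvd_sum fun j _ => ?_
  set l := Function.minimalPeriod (fun x : G ⧸ F => c • x) (p i) with hl
  set l' := Function.minimalPeriod (fun x : G ⧸ L => c • x) (q j) with hl'
  have d1 : d ∣ Nat.gcd l l' := Nat.dvd_gcd (per F hF _) (per L hL _)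
  have d2 : n ∣ Nat.lcm l l' * Nat.card (F ⊓ L : Subgroup G) := by
    have e0 : ∀ (E : Subgroup G) (x : G ⧸ E) (j : ℕ),
        (fun x : G ⧸ E => c • x)^[j] x = c ^ j • x := by
      intro E x j
      induction j with
      | zero => simp
      | succ j ih => rw [Function.iterate_succ_apply', ih, pow_succ', mul_smul]
    have f1 : c ^ (Nat.lcm l l') • p i = p i := by
      rw [← e0]
      exact Function.isPeriodicPt_iff_minimalPeriod_dvd.mpr (Nat.dvd_lcm_left _ _)
    have f2 : c ^ (Nat.lcm l l') • q j = q j := by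
      rw [← e0]
      exact Function.isPeriodicPt_iff_minimalPeriod_dvd.mpr (Nat.dvd_lcm_right _ _)
    generalize Nat.lcm l l' = M at *
    generalize p i = x at *
    generalize q j = x' at *
    induction x using QuotientGroup.induction_on with
    | _ y =>
    induction x' using QuotientGroup.induction_on with
    | _ y' =>
      have g1 : y⁻¹ * (c ^ M * y) ∈ F := by
        have : ((c ^ M * y : G) : G ⧸ F) = (y : G ⧸ F) := f1
        rw [eq_comm, QuotientGroup.eq] at this
        exact this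
      have g2 : y'⁻¹ * (c ^ M * y') ∈ L := by
        have : ((c ^ M * y' : G) : G ⧸ L) = (y' : G ⧸ L) := f2
        rw [eq_comm, QuotientGroup.eq] at this
        exact this
      obtain ⟨f, hf, l0, hl0, h⟩ := hFL (y⁻¹ * y')
      have hy' : y' = y * f * l0 := by rw [mul_assoc, ← h, mul_inv_cancel_left]
      set w := y * f with hw
      have g3 : w⁻¹ * (c ^ M * w) ∈ F ⊓ L := by
        constructor
        · have : w⁻¹ * (c ^ M * w) = f⁻¹ * (y⁻¹ * (c ^ M * y)) * f := by rw [hw]; group
          rw [this]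
          exact F.mul_mem (F.mul_mem (F.inv_mem hf) g1) hf
        · have : w⁻¹ * (c ^ M * w) = l0 * (y'⁻¹ * (c ^ M * y')) * l0⁻¹ := by rw [hy']; group
          rw [this]
          exact L.mul_mem (L.mul_mem hl0 g2) (L.inv_mem hl0)
      have g4 : (w⁻¹ * (c ^ M * w)) ^ Nat.card (F ⊓ L : Subgroup G) = 1 := by
        have := pow_card_eq_one' (x := (⟨_, g3⟩ : (F ⊓ L : Subgroup G)))
        have h2 := congrArg Subtype.val this
        simpa using h2
      have g5 : c ^ (M * Nat.card (F ⊓ L : Subgroup G)) = 1 := by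
        have h2 := (conj_pow (i := Nat.card (F ⊓ L : Subgroup G)) (a := w⁻¹) (b := c ^ M))
        rw [inv_inv, ← pow_mul, mul_assoc w⁻¹, g4] at h2
        have h3 : c ^ (M * Nat.card (F ⊓ L : Subgroup G)) = w * 1 * w⁻¹ := by
          rw [h2]; group
        rw [h3]; group
      exact orderOf_dvd_of_pow_eq_one g5
  rw [← Nat.gcd_mul_lcm l l', mul_comm n d, mul_assoc]
  exact Nat.mul_dvd_mul d1 d2

end Pool.Agent.BicHopf
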