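import Pool.Agent.Lib.MP_0d5e35_al.BicHopfAlg

set_option autoImplicit false

open scoped TensorProduct

namespace Pool.Agent.BicHopf

/-- `exp(H) = n`: with `S'` the inverse of the antipode, `n` is the least positive integer such
that `m_n ∘ (I ⊗ S'² ⊗ S'⁴ ⊗ ⋯ ⊗ S'^(2n-2)) ∘ Δ_n = ε · 1`; the left hand side is the `n`-th
iterate of `T ↦ m ∘ (I ⊗ S'² T) ∘ Δ` at `ε · 1`. -/
def IsExponent (k H : Type) [Field k] [Ring H] [HopfAlgebra k H] (n : ℕ) : Prop :=
  ∃ S' : H →ₗ[k] H,
    S' ∘ₗ HopfAlgebra.antipode k (A := H) = LinearMap.id ∧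
    HopfAlgebra.antipode k (A := H) ∘ₗ S' = LinearMap.id ∧
    IsLeast {m : ℕ | 0 < m ∧
      (fun T : H →ₗ[k] H => LinearMap.mul' k H ∘ₗ
          TensorProduct.map LinearMap.id (S' ∘ₗ S' ∘ₗ T) ∘ₗ
          Coalgebra.comul (R := k) (A := H))^[m]
        (Algebra.linearMap k H ∘ₗ Coalgebra.counit (R := k) (A := H))
        = Algebra.linearMap k H ∘ₗ Coalgebra.counit (R := k) (A := H)} n

variable {k F L : Type} [Field k] [Group F] [Group L]

/-- the inverse of `step` -/
def stepInv (D : Datum k F L) (z : F × L) : F × L := (D.r z.1 (D.l z.1 z.2)⁻¹, D.l z.1 z.2)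

lemma step_stepInv (D : Datum k F L) (z : F × L) : D.step (stepInv D z) = z := by
  have h1 : D.r (D.r z.1 (D.l z.1 z.2)⁻¹) (D.l z.1 z.2) = z.1 := MatchedPair.r_r_inv _ _ _
  refine Prod.ext h1 ?_
  show D.l (D.r (D.r z.1 (D.l z.1 z.2)⁻¹) (D.l z.1 z.2))⁻¹ (D.l z.1 z.2) = z.2
  rw [h1, MatchedPair.l_inv_l]

lemma stepInv_step (D : Datum k F L) (z : F × L) : stepInv D (D.step z) = z := by
  refine Prod.ext ?_ ?_
  · show D.r (D.step z).1 (D.l (D.step z).1 (D.step z).2)⁻¹ = z.1
    rw [MatchedPair.l_step, MatchedPair.step_fst, MatchedPair.r_inv_r]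
  · exact MatchedPair.l_step _ _

/-- `step` as an equivalence -/
def stepEquiv (D : Datum k F L) : F × L ≃ F × L where
  toFun := stepInv D
  invFun := D.step
  left_inv := step_stepInv D
  right_inv := stepInv_step D

variable [Fintype F] [DecidableEq F] [Fintype L] [DecidableEq L]
  {D : Datum k F L} {H : Type} [Ring H] [HopfAlgebra k H]

namespace IsBicrossed

variable (B : IsBicrossed D H)

/-- Sweedler powers -/
noncomputable def sw (T : H →ₗ[k] H) : H →ₗ[k] H :=
  LinearMap.mul' k H ∘ₗ TensorProduct.map LinearMap.id T ∘ₗ Coalgebra.comul (R := k) (A := H)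

lemma pow_apply (n : ℕ) (s : F) (x : L) :
    (sw (k := k) (H := H))^[n]
      (Algebra.linearMap k H ∘ₗ Coalgebra.counit (R := k) (A := H)) (B.b (s, x)) =
    ∑ z : F × L, if D.Pr n z = s ∧ D.lx n z = x then
      (D.wt n z : k) • B.b (z.1, D.Qr n z) else 0 := by
  induction n generalizing s x with
  | zero =>
    rw [Function.iterate_zero, id_eq, LinearMap.comp_apply, B.counit, Fintype.sum_prod_type]
    simp only [MatchedPair.Pr_zero, MatchedPair.Qr_zero, MatchedPair.lx_zero, D.wt_zero,
      Units.val_one, one_smul]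
    by_cases hs : s = 1
    · subst hs
      simp only [if_true, true_and, map_one, Algebra.linearMap_apply]
      rw [B.one]
      refine Finset.sum_congr rfl fun t _ => ?_
      rw [Finset.sum_eq_single (D.l t⁻¹ x)]
      · rw [if_pos (MatchedPair.l_l_inv _ _ _)]
      · intro y _ hy
        rw [if_neg]
        intro h
        apply hy
        rw [← h, MatchedPair.l_inv_l]
      · intro h; exact absurd (Finset.mem_univ _) h
    · rw [if_neg hs, map_zero]
      symm
      refine Finset.sum_eq_zero fun t _ => Finset.sum_eq_zero fun y _ => ?_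
      rw [if_neg]
      rintro ⟨h, -⟩
      exact hs h.symm
  | succ n ih =>
    rw [Function.iterate_succ_apply', sw, LinearMap.comp_apply, LinearMap.comp_apply,
      B.conv_apply]
    simp only [ih, Finset.mul_sum, Finset.smul_sum]
    rw [Finset.sum_comm, ← (stepEquiv D).sum_comp (fun z => if D.Pr (n + 1) z = s ∧
      D.lx (n + 1) z = x then (D.wt (n + 1) z : k) • B.b (z.1, D.Qr (n + 1) z) else 0)]
    refine Finset.sum_congr rfl fun z _ => ?_
    show _ = if D.Pr (n + 1) (stepInv D z) = s ∧ D.lx (n + 1) (stepInv D z) = x then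
      (D.wt (n + 1) (stepInv D z) : k) • B.b ((stepInv D z).1, D.Qr (n + 1) (stepInv D z)) else 0
    rw [MatchedPair.Pr_succ, MatchedPair.Qr_succ, MatchedPair.lx_succ, D.wt_succ, step_stepInv]
    set tz := (stepInv D z).1 with htz
    have hy : (stepInv D z).2 = D.l z.1 z.2 := rfl
    have hr : ∀ t, D.r t (D.l z.1 z.2) = z.1 ↔ t = tz := by
      intro t
      rw [htz, stepInv]
      constructor
      · intro h
        rw [← MatchedPair.r_inv_r D.toMatchedPair t (D.l z.1 z.2), h]
      · intro h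
        rw [h, MatchedPair.r_r_inv]
    rw [hy, Finset.sum_eq_single tz]
    · by_cases hc : tz * D.Pr n z = s ∧ D.lx n z = x
      · obtain ⟨h1, h2⟩ := hc
        have h3 : tz⁻¹ * s = D.Pr n z := by rw [← h1, inv_mul_cancel_left]
        rw [if_pos ⟨h3.symm, h2⟩, if_pos ⟨h1, h2⟩, h3, ← h2, MatchedPair.l_Pr,
          LinearMap.id_apply, mul_smul_comm, B.mul, if_pos ((hr tz).mpr rfl), smul_smul, smul_smul]
        push_cast
        congr 1
        ring
      · rw [if_neg hc, if_neg, mul_zero, smul_zero]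
        rintro ⟨h1, h2⟩
        exact hc ⟨by rw [h1, mul_inv_cancel_left], h2⟩
    · intro t _ ht
      by_cases hc : D.Pr n z = t⁻¹ * s ∧ D.lx n z = x
      · rw [if_pos hc, ← hc.1, ← hc.2, MatchedPair.l_Pr, LinearMap.id_apply, mul_smul_comm, B.mul,
          if_neg, smul_zero, smul_zero]
        rw [hr]
        exact ht
      · rw [if_neg hc, mul_zero, smul_zero]
    · intro h; exact absurd (Finset.mem_univ _) h

include B in
lemma pow_card :
    (sw (k := k) (H := H))^[Fintype.card L * Fintype.card F]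
      (Algebra.linearMap k H ∘ₗ Coalgebra.counit (R := k) (A := H)) =
      (Algebra.linearMap k H ∘ₗ Coalgebra.counit (R := k) (A := H)) := by
  refine B.b.ext fun p => ?_
  obtain ⟨s, x⟩ := p
  have h0 := B.pow_apply 0 s x
  rw [Function.iterate_zero, id_eq] at h0
  rw [B.pow_apply, h0]
  refine Finset.sum_congr rfl fun z _ => ?_
  obtain ⟨h1, h2, h3, h4⟩ := D.full z
  rw [h1, h2, h3, h4, MatchedPair.Pr_zero, MatchedPair.lx_zero, MatchedPair.Qr_zero, D.wt_zero]

include B in
/-- the exponent of a bicrossed product divides its dimension -/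
theorem exponent_dvd : ∃ n, IsExponent k H n ∧ n ∣ Module.finrank k H := by
  have hS := B.antipode_sq
  set N := Fintype.card L * Fintype.card F with hN
  have hN0 : 0 < N := Nat.mul_pos Fintype.card_pos Fintype.card_pos
  have hfin : Module.finrank k H = N := by
    rw [Module.finrank_eq_card_basis B.b, Fintype.card_prod, mul_comm]
  have hsw : (fun T : H →ₗ[k] H => LinearMap.mul' k H ∘ₗ
      TensorProduct.map LinearMap.id
        (HopfAlgebra.antipode k (A := H) ∘ₗ HopfAlgebra.antipode k (A := H) ∘ₗ T) ∘ₗ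
      Coalgebra.comul (R := k) (A := H)) = sw := by
    funext T
    have e : HopfAlgebra.antipode k (A := H) ∘ₗ HopfAlgebra.antipode k (A := H) ∘ₗ T = T := by
      rw [← LinearMap.comp_assoc, hS, LinearMap.id_comp]
    rw [e, sw]
  have hper : Function.IsPeriodicPt (sw (k := k) (H := H)) N
      (Algebra.linearMap k H ∘ₗ Coalgebra.counit (R := k) (A := H)) := B.pow_card
  refine ⟨Function.minimalPeriod (sw (k := k) (H := H))
    (Algebra.linearMap k H ∘ₗ Coalgebra.counit (R := k) (A := H)),
    ⟨HopfAlgebra.antipode k (A := H), hS, hS, ?_⟩, ?_⟩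
  · rw [hsw]
    exact ⟨⟨hper.minimalPeriod_pos hN0, Function.isPeriodicPt_minimalPeriod _ _⟩,
      fun m hm => Function.IsPeriodicPt.minimalPeriod_le hm.1 hm.2⟩
  · rw [hfin]
    exact hper.minimalPeriod_dvd

end IsBicrossed

end Pool.Agent.BicHopf
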