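import Pool.Agent.Lib.MP_0d5e35_al.BicDatum

set_option autoImplicit false

namespace Pool.Agent.BicHopf

namespace MatchedPair

variable {F L : Type} [Group F] [Group L] (M : MatchedPair F L)

/-- the staircase map on cells -/
def step (z : F × L) : F × L := (M.r z.1 z.2, M.l (M.r z.1 z.2)⁻¹ z.2)

lemma l_step (z : F × L) : M.l (M.step z).1 (M.step z).2 = z.2 := by
  simp [step, M.l_l_inv]

lemma step_fst (z : F × L) : (M.step z).1 = M.r z.1 z.2 := rfl

/-- `s_0 s_1 ⋯ s_(n-1)` -/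
def Pr : ℕ → F × L → F
  | 0, _ => 1
  | n + 1, z => z.1 * Pr n (M.step z)

/-- `x_0 x_1 ⋯ x_(n-1)` -/
def Qr : ℕ → F × L → L
  | 0, _ => 1
  | n + 1, z => z.2 * Qr n (M.step z)

/-- the right edge `x_(n-1)` -/
def lx (n : ℕ) (z : F × L) : L := M.l ((M.step^[n]) z).1 ((M.step^[n]) z).2

@[simp] lemma Pr_zero (z : F × L) : M.Pr 0 z = 1 := rfl
@[simp] lemma Qr_zero (z : F × L) : M.Qr 0 z = 1 := rfl
lemma Pr_succ (n : ℕ) (z : F × L) : M.Pr (n + 1) z = z.1 * M.Pr n (M.step z) := rfl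
lemma Qr_succ (n : ℕ) (z : F × L) : M.Qr (n + 1) z = z.2 * M.Qr n (M.step z) := rfl

lemma lx_succ (n : ℕ) (z : F × L) : M.lx (n + 1) z = M.lx n (M.step z) := rfl
lemma lx_zero (z : F × L) : M.lx 0 z = M.l z.1 z.2 := rfl

lemma lx_succ' (n : ℕ) (z : F × L) : M.lx (n + 1) z = ((M.step^[n]) z).2 := by
  unfold lx
  rw [Function.iterate_succ_apply', l_step]

lemma Pr_succ' (n : ℕ) (z : F × L) : M.Pr (n + 1) z = M.Pr n z * ((M.step^[n]) z).1 := by
  induction n generalizing z with
  | zero => simp [Pr_succ]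
  | succ n ih =>
    rw [Pr_succ, ih, Pr_succ, Function.iterate_succ_apply, mul_assoc]

lemma Qr_succ' (n : ℕ) (z : F × L) : M.Qr (n + 1) z = M.Qr n z * ((M.step^[n]) z).2 := by
  induction n generalizing z with
  | zero => simp [Qr_succ]
  | succ n ih =>
    rw [Qr_succ, ih, Qr_succ, Function.iterate_succ_apply, mul_assoc]

lemma Pr_add (m n : ℕ) (z : F × L) : M.Pr (m + n) z = M.Pr m z * M.Pr n ((M.step^[m]) z) := by
  induction m generalizing z with
  | zero => simp
  | succ m ih =>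
    rw [Nat.add_right_comm, Pr_succ, ih, Pr_succ, Function.iterate_succ_apply, mul_assoc]

lemma Qr_add (m n : ℕ) (z : F × L) : M.Qr (m + n) z = M.Qr m z * M.Qr n ((M.step^[m]) z) := by
  induction m generalizing z with
  | zero => simp
  | succ m ih =>
    rw [Nat.add_right_comm, Qr_succ, ih, Qr_succ, Function.iterate_succ_apply, mul_assoc]

lemma l_Pr (n : ℕ) (z : F × L) : M.l (M.Pr n z) (M.lx n z) = M.l z.1 z.2 := by
  induction n generalizing z with
  | zero => simp [lx_zero]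
  | succ n ih => rw [Pr_succ, lx_succ, M.l_mul, ih, l_step]

lemma r_Pr (n : ℕ) (z : F × L) : M.r (M.Pr n z) (M.lx n z) = M.Pr n (M.step z) := by
  induction n generalizing z with
  | zero => simp
  | succ n ih =>
    rw [Pr_succ, lx_succ, M.r_mul_left, ih, l_Pr, l_step, Pr_succ, step_fst]

lemma r_Qr (n : ℕ) (z : F × L) : M.r z.1 (M.Qr n z) = ((M.step^[n]) z).1 := by
  induction n generalizing z with
  | zero => simp
  | succ n ih =>
    rw [Qr_succ, M.r_mul, ← step_fst, ih, Function.iterate_succ_apply]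

/-- the action of `c` on `L = G/F` -/
def T (z : F × L) (a : L) : L := (M.l z.1 z.2)⁻¹ * M.l z.1 a

lemma T_eq (z : F × L) (a : L) : M.T z a = M.l (M.step z).1 (z.2⁻¹ * a) := by
  have h := M.l_mul_right z.1 z.2 (z.2⁻¹ * a)
  rw [mul_inv_cancel_left] at h
  rw [T, h, inv_mul_cancel_left, step_fst]

lemma T_step (z : F × L) (a : L) : M.T (M.step z) (z.2⁻¹ * a) = z.2⁻¹ * M.T z a := by
  rw [T, l_step, T_eq]

lemma T_step_iterate (z : F × L) (m : ℕ) (a : L) :
    (M.T (M.step z))^[m] (z.2⁻¹ * a) = z.2⁻¹ * (M.T z)^[m] a := by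
  induction m generalizing a with
  | zero => rfl
  | succ m ih => rw [Function.iterate_succ_apply, T_step, ih, Function.iterate_succ_apply]

lemma T_iterate_iterate (z : F × L) (i m : ℕ) (a : L) :
    (M.T ((M.step^[i]) z))^[m] ((M.Qr i z)⁻¹ * a) = (M.Qr i z)⁻¹ * (M.T z)^[m] a := by
  induction i generalizing z a with
  | zero => simp
  | succ i ih =>
    rw [Function.iterate_succ_apply, Qr_succ, mul_inv_rev, mul_assoc, ih, T_step_iterate,
      mul_assoc]

lemma l_Pr_step (j : ℕ) (z : F × L) (b : L) :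
    M.l (M.Pr j (M.step z)) ((M.Qr j z)⁻¹ * b) = (M.T z)^[j] b := by
  induction j generalizing z b with
  | zero => simp
  | succ j ih =>
    rw [Pr_succ, M.l_mul, Qr_succ, mul_inv_rev, mul_assoc, ih, T_step_iterate, ← T_eq,
      Function.iterate_succ_apply']

lemma T_injective (z : F × L) : Function.Injective (M.T z) := fun a b h => by
  unfold T at h
  exact M.l_injective _ (mul_left_cancel h)

/-- the action of `c` on `F = G/L`, in the coordinate `V = u⁻¹`. -/
def Tr (z : F × L) (V : F) : F := M.r V z.2 * (M.r z.1 z.2)⁻¹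

lemma Tr_step (z : F × L) (V : F) : M.Tr (M.step z) (M.r V z.2) = M.r (M.Tr z V) z.2 := by
  unfold Tr
  have h1 := M.r_mul_left (M.r V z.2) (M.r z.1 z.2)⁻¹ z.2
  have h2 : M.r (M.r z.1 z.2)⁻¹ z.2 = (M.r (M.step z).1 (M.step z).2)⁻¹ := by
    have := M.r_inv (M.step z).1 (M.step z).2
    rw [l_step] at this
    rw [← this, step_fst]
  rw [h1, h2]
  rfl

lemma Tr_step_iterate (z : F × L) (m : ℕ) (V : F) :
    (M.Tr (M.step z))^[m] (M.r V z.2) = M.r ((M.Tr z)^[m] V) z.2 := by
  induction m generalizing V with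
  | zero => rfl
  | succ m ih => rw [Function.iterate_succ_apply, Tr_step, ih, Function.iterate_succ_apply]

lemma Tr_iterate (m : ℕ) (z : F × L) (V : F) :
    (M.Tr z)^[m] V = M.r V (M.Qr m z) * (M.Pr m (M.step z))⁻¹ := by
  induction m generalizing z V with
  | zero => simp
  | succ m ih =>
    have h := ih (M.step z) (M.r V z.2)
    rw [Tr_step_iterate] at h
    rw [Function.iterate_succ_apply', Tr, h, Qr_succ, M.r_mul, Pr_succ, step_fst]
    group

lemma Tr_injective (z : F × L) : Function.Injective (M.Tr z) := fun a b h => by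
  unfold Tr at h
  have h1 := mul_right_cancel h
  rw [← M.r_inv_r a z.2, h1, M.r_inv_r]

/-- A pair of maps `(f, g)` on `L × F` given by an element `y t` of the group `G = L F`. -/
def Rep (f : L → L) (g : F → F) : Prop :=
  ∃ (y : L) (t : F), (∀ a, f a = y * M.l t a) ∧ ∀ V, g V = M.r (V * t⁻¹) y⁻¹

lemma rep_id : M.Rep id id := ⟨1, 1, by simp, by simp⟩

lemma rep_comp {f f' : L → L} {g g' : F → F} (h : M.Rep f g) (h' : M.Rep f' g') :
    M.Rep (f ∘ f') (g ∘ g') := by
  obtain ⟨y, t, h1, h2⟩ := h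
  obtain ⟨y', t', h1', h2'⟩ := h'
  refine ⟨y * M.l t y', M.r t y' * t', fun a => ?_, fun V => ?_⟩
  · rw [Function.comp_apply, h1, h1', M.l_mul_right, M.l_mul, mul_assoc]
  · rw [Function.comp_apply, h2, h2', mul_inv_rev, mul_inv_rev, M.r_mul, ← mul_assoc,
      M.r_mul_left (V * t'⁻¹), l_inv_inv, r_inv_inv]

lemma rep_T (z : F × L) : M.Rep (M.T z) (M.Tr z) := by
  refine ⟨(M.l z.1 z.2)⁻¹, z.1, fun a => rfl, fun V => ?_⟩
  rw [inv_inv, M.r_mul_left, M.l_inv_l, r_inv]
  rfl

lemma rep_iterate (z : F × L) (m : ℕ) : M.Rep ((M.T z)^[m]) ((M.Tr z)^[m]) := by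
  induction m with
  | zero => exact M.rep_id
  | succ m ih =>
    rw [Function.iterate_succ, Function.iterate_succ]
    exact M.rep_comp ih (M.rep_T z)

lemma rep_fix {f : L → L} {g : F → F} (h : M.Rep f g) {a : L} {V : F} (ha : f a = a)
    (hV : g V = V) : (∀ b, f b = b) ∧ ∀ U, g U = U := by
  obtain ⟨y, t, h1, h2⟩ := h
  rw [h1] at ha
  rw [h2] at hV
  have e1 : V * t⁻¹ = M.r V y := by
    rw [← M.r_r_inv (V * t⁻¹) y, hV]
  have e2 : M.l V a = M.l V y * M.l V a := by
    conv_lhs => rw [← ha, M.l_mul_right, ← e1, ← M.l_mul, inv_mul_cancel_right]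
  have e3 : M.l V y = 1 := by
    have := mul_right_cancel (a := M.l V y) (b := M.l V a) (c := 1) (by rw [one_mul]; exact e2.symm)
    exact this
  have e4 : y = 1 := M.l_injective V (by rw [e3, l_unit])
  subst e4
  have e5 : t = 1 := by
    rw [r_one'] at e1
    exact inv_eq_one.mp (mul_eq_left.mp e1)
  subst e5
  exact ⟨fun b => by rw [h1]; simp, fun U => by rw [h2]; simp⟩

end MatchedPair

end Pool.Agent.BicHopf
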