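import Pool.Agent.Lib.MP_0d5e35_al.BicTraj

set_option autoImplicit false

namespace Pool.Agent.BicHopf

namespace Datum

variable {k F L : Type} [Field k] [Group F] [Group L] (D : Datum k F L)

/-- `τ`-part of the weight, with right edge `Y` -/
def tauP (Y : L) : ℕ → F × L → kˣ
  | 0, _ => 1
  | n + 1, z => D.τ Y z.1 (D.Pr n (D.step z)) * tauP Y n (D.step z)

/-- `σ`-part of the weight -/
def sigP : ℕ → F × L → kˣ
  | 0, _ => 1
  | n + 1, z => D.σ z.1 z.2 (D.Qr n (D.step z)) * sigP n (D.step z)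

/-- the weight of a staircase of length `n` -/
def wt (n : ℕ) (z : F × L) : kˣ := D.tauP (D.lx n z) n z * D.sigP n z

lemma wt_zero (z : F × L) : D.wt 0 z = 1 := by simp [wt, tauP, sigP]

lemma wt_succ (n : ℕ) (z : F × L) : D.wt (n + 1) z =
    D.τ (D.lx n (D.step z)) z.1 (D.Pr n (D.step z)) * D.σ z.1 z.2 (D.Qr n (D.step z)) *
      D.wt n (D.step z) := by
  simp only [wt, tauP, sigP, MatchedPair.lx_succ]
  ac_rfl

/-- left associated weight -/
def wl : ℕ → F × L → kˣ
  | 0, _ => 1
  | n + 1, z => wl n z * (D.τ (((D.step^[n]) z).2) (D.Pr n z) ((D.step^[n]) z).1 *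
      D.σ z.1 (D.Qr n z) ((D.step^[n]) z).2)

lemma wt_eq_wl (n : ℕ) (z : F × L) : D.wt n z = D.wl n z := by
  induction n using Nat.strong_induction_on generalizing z with
  | _ n ih =>
    match n, ih with
    | 0, _ => simp [wt_zero, wl]
    | 1, _ =>
      simp [wt_succ, wt_zero, wl, D.τ_one_right, D.τ_one_left, D.σ_one_right, D.σ_one_left]
    | n + 2, ih =>
      have h1 := ih (n + 1) (by omega) (D.step z)
      have h2 := ih (n + 1) (by omega) z
      have h3 := ih n (by omega) (D.step z)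
      rw [wl] at h1
      rw [wl, ← h2, wt_succ, wt_succ D n z, h1, ← h3, MatchedPair.lx_succ' D.toMatchedPair n (D.step z),
        ← Function.iterate_succ_apply]
      set u := (D.step^[n + 1]) z with hu
      have hl : D.lx n (D.step z) = D.l u.1 u.2 := by
        rw [hu, Function.iterate_succ_apply]; rfl
      have c1 := D.τ_cocycle u.2 z.1 (D.Pr n (D.step z)) u.1
      have c2 := D.σ_cocycle z.1 z.2 (D.Qr n (D.step z)) u.2
      have p1 : D.Pr (n + 1) (D.step z) = D.Pr n (D.step z) * u.1 := by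
        rw [MatchedPair.Pr_succ', ← Function.iterate_succ_apply]
      have q1 : D.Qr (n + 1) (D.step z) = D.Qr n (D.step z) * u.2 := by
        rw [MatchedPair.Qr_succ', ← Function.iterate_succ_apply]
      rw [hl, p1, q1, MatchedPair.Pr_succ, MatchedPair.Qr_succ]
      rw [MatchedPair.step_fst] at *
      calc _ = (D.τ u.2 z.1 (D.Pr n (D.step z) * u.1) * D.τ u.2 (D.Pr n (D.step z)) u.1) *
            (D.σ (D.r z.1 z.2) (D.Qr n (D.step z)) u.2 * D.σ z.1 z.2 (D.Qr n (D.step z) * u.2)) *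
            D.wt n (D.step z) := by ac_rfl
        _ = (D.τ u.2 (z.1 * D.Pr n (D.step z)) u.1 * D.τ (D.l u.1 u.2) z.1 (D.Pr n (D.step z))) *
            (D.σ z.1 z.2 (D.Qr n (D.step z)) * D.σ z.1 (z.2 * D.Qr n (D.step z)) u.2) *
            D.wt n (D.step z) := by rw [c1, c2]
        _ = _ := by ac_rfl

/-- bottom row factor -/
def sigRow (a : L) : ℕ → F × L → kˣ
  | 0, _ => 1
  | n + 1, z => D.σ z.1 z.2 (D.l (D.Pr n (D.step (D.step z))) a) * sigRow a n (D.step z)

/-- the row lemma -/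
lemma row (n : ℕ) (z : F × L) (a : L) :
    D.σ (D.Pr n z) (D.lx n z) a * D.tauP (D.lx n z * a) n z =
      D.sigRow a n z * (D.tauP (D.lx n z) n z * D.tauP a n (D.step z)) := by
  induction n generalizing z with
  | zero => simp [tauP, sigRow, D.σ_one]
  | succ n ih =>
    have h := ih (D.step z)
    have c := D.compat z.1 (D.Pr n (D.step z)) (D.lx n (D.step z)) a
    rw [MatchedPair.l_Pr, MatchedPair.r_Pr, MatchedPair.l_step] at c
    simp only [tauP, sigRow, MatchedPair.lx_succ, MatchedPair.Pr_succ]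
    rw [← mul_assoc, c]
    calc _ = D.σ z.1 z.2 (D.l (D.Pr n (D.step (D.step z))) a) *
          (D.τ (D.lx n (D.step z)) z.1 (D.Pr n (D.step z)) *
            D.τ a (D.r z.1 z.2) (D.Pr n (D.step (D.step z)))) *
          (D.σ (D.Pr n (D.step z)) (D.lx n (D.step z)) a *
            D.tauP (D.lx n (D.step z) * a) n (D.step z)) := by ac_rfl
      _ = _ := by rw [h, MatchedPair.step_fst]; ac_rfl

lemma tauP_succ' (n : ℕ) (z : F × L) (a : L) :
    D.tauP a (n + 1) z =
      D.tauP (D.l ((D.step^[n]) z).1 a) n z * D.τ a (D.Pr n z) ((D.step^[n]) z).1 := by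
  induction n generalizing z with
  | zero => simp [tauP, D.τ_one_left, D.τ_one_right]
  | succ n ih =>
    have c := D.τ_cocycle a z.1 (D.Pr n (D.step z)) ((D.step^[n + 1]) z).1
    have p1 : D.Pr (n + 1) (D.step z) = D.Pr n (D.step z) * ((D.step^[n + 1]) z).1 := by
      rw [MatchedPair.Pr_succ', ← Function.iterate_succ_apply]
    rw [tauP, ih, tauP, p1, MatchedPair.Pr_succ, ← Function.iterate_succ_apply]
    calc _ = (D.τ a z.1 (D.Pr n (D.step z) * ((D.step^[n + 1]) z).1) *
          D.τ a (D.Pr n (D.step z)) ((D.step^[n + 1]) z).1) *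
          D.tauP (D.l ((D.step^[n + 1]) z).1 a) n (D.step z) := by ac_rfl
      _ = _ := by rw [← c]; ac_rfl

/-- a closed staircase -/
structure Closed (n : ℕ) (z : F × L) : Prop where
  pos : 0 < n
  P : D.Pr n z = 1
  Q : D.Qr n z = 1
  per : (D.step^[n]) z = z

lemma tauP_rotate {n : ℕ} {z : F × L} (h : D.Closed n z) (a : L) :
    D.tauP a n (D.step z) = D.tauP (D.l z.1 a) n z := by
  obtain ⟨m, rfl⟩ : ∃ m, n = m + 1 := ⟨n - 1, by have := h.pos; omega⟩
  have e : D.Pr m (D.step z) = z.1⁻¹ := by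
    have := h.P
    rw [MatchedPair.Pr_succ] at this
    exact eq_inv_of_mul_eq_one_right this
  rw [tauP_succ', ← Function.iterate_succ_apply, h.per, tauP, e, D.τ_inv, mul_comm]

lemma lx_closed {n : ℕ} {z : F × L} (h : D.Closed n z) : D.lx n z = D.l z.1 z.2 := by
  rw [MatchedPair.lx, h.per]

/-- the main relation -/
lemma main_rel {n : ℕ} {z : F × L} (h : D.Closed n z) (a : L) :
    D.tauP (D.l z.1 z.2 * a) n z =
      D.sigRow a n z * D.tauP (D.lx n z) n z * D.tauP (D.l z.1 z.2 * D.T z a) n z := by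
  have h1 := D.row n z a
  rw [h.P, D.σ_one, one_mul, D.tauP_rotate h] at h1
  rw [D.lx_closed h] at *
  rw [h1, mul_assoc, MatchedPair.T, mul_inv_cancel_left]

lemma sigRow_eq (n : ℕ) (z : F × L) (a : L) : D.sigRow a n z =
    ∏ i ∈ Finset.range n, D.σ ((D.step^[i]) z).1 ((D.step^[i]) z).2
      (D.l (D.Pr (n - 1 - i) ((D.step^[i + 2]) z)) a) := by
  induction n generalizing z with
  | zero => simp [sigRow]
  | succ n ih =>
    rw [sigRow, ih, Finset.prod_range_succ', mul_comm]
    congr 1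
    refine Finset.prod_congr rfl fun i hi => ?_
    have : n + 1 - 1 - (i + 1) = n - 1 - i := by omega
    rw [this]
    rfl

lemma sigP_eq (n : ℕ) (z : F × L) : D.sigP n z =
    ∏ i ∈ Finset.range n, D.σ ((D.step^[i]) z).1 ((D.step^[i]) z).2
      (D.Qr (n - 1 - i) ((D.step^[i + 1]) z)) := by
  induction n generalizing z with
  | zero => simp [sigP]
  | succ n ih =>
    rw [sigP, ih, Finset.prod_range_succ', mul_comm]
    congr 1
    refine Finset.prod_congr rfl fun i hi => ?_
    have : n + 1 - 1 - (i + 1) = n - 1 - i := by omega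
    rw [this]
    rfl

/-- `Ψ_i(b)` -/
def Psi (z : F × L) (i : ℕ) (b : L) : kˣ :=
  D.σ ((D.step^[i]) z).1 ((D.step^[i]) z).2 ((D.Qr (i + 1) z)⁻¹ * b)

lemma Qr_split {n : ℕ} {z : F × L} (h : D.Closed n z) {i : ℕ} (hi : i < n) :
    D.Qr (n - 1 - i) ((D.step^[i + 1]) z) = (D.Qr (i + 1) z)⁻¹ := by
  have h1 := D.toMatchedPair.Qr_add (i + 1) (n - 1 - i) z
  have e : i + 1 + (n - 1 - i) = n := by omega
  rw [e, h.Q] at h1
  exact eq_inv_of_mul_eq_one_right h1.symm

lemma sigRow_eq' {n : ℕ} {z : F × L} (h : D.Closed n z) (a : L) : D.sigRow a n z =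
    ∏ i ∈ Finset.range n, D.Psi z i ((D.T z)^[n - 1 - i] a) := by
  rw [sigRow_eq]
  refine Finset.prod_congr rfl fun i hi => ?_
  rw [Psi]
  congr 1
  rw [Finset.mem_range] at hi
  have h1 := D.toMatchedPair.l_Pr_step (n - 1 - i) ((D.step^[i + 1]) z) ((D.Qr (i + 1) z)⁻¹ * a)
  rw [D.Qr_split h hi, inv_inv, mul_inv_cancel_left, MatchedPair.T_iterate_iterate] at h1
  rw [← h1, Function.iterate_succ_apply' _ (i + 1)]

lemma prod_Psi {n : ℕ} {z : F × L} (h : D.Closed n z) (b : L) :
    ∏ i ∈ Finset.range n, D.Psi z i b = D.sigP n z := by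
  have key : ∀ m, D.σ z.1 1 b * ∏ i ∈ Finset.range m, D.σ ((D.step^[i]) z).1
      ((D.step^[i]) z).2 ((D.Qr (i + 1) z)⁻¹) =
      D.σ ((D.step^[m]) z).1 ((D.Qr m z)⁻¹) b * ∏ i ∈ Finset.range m, D.Psi z i b := by
    intro m
    induction m with
    | zero => simp
    | succ m ih =>
      rw [Finset.prod_range_succ, Finset.prod_range_succ, ← mul_assoc, ih]
      have c := D.σ_cocycle ((D.step^[m]) z).1 ((D.step^[m]) z).2 ((D.Qr (m + 1) z)⁻¹) b
      have e : ((D.step^[m]) z).2 * (D.Qr (m + 1) z)⁻¹ = (D.Qr m z)⁻¹ := by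
        rw [MatchedPair.Qr_succ', mul_inv_rev, mul_inv_cancel_left]
      rw [e] at c
      rw [Function.iterate_succ_apply', MatchedPair.step_fst]
      calc _ = (D.σ ((D.step^[m]) z).1 ((D.step^[m]) z).2 (D.Qr (m + 1) z)⁻¹ *
            D.σ ((D.step^[m]) z).1 (D.Qr m z)⁻¹ b) * ∏ i ∈ Finset.range m, D.Psi z i b := by
              ac_rfl
        _ = _ := by rw [c, Psi]; ac_rfl
  have k := key n
  rw [h.per, h.Q, inv_one, D.σ_one_left, one_mul, one_mul] at k
  rw [← k, sigP_eq]
  refine Finset.prod_congr rfl fun i hi => ?_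
  rw [D.Qr_split h (Finset.mem_range.mp hi)]

/-- cyclic shift in a product along a periodic orbit -/
lemma prod_shift {A : Type} {G : Type} [CommGroup G] (f : A → A) (g : A → G) (l : ℕ) (a : A)
    (h : f^[l] a = a) (j : ℕ) :
    ∏ m ∈ Finset.range l, g (f^[m + j] a) = ∏ m ∈ Finset.range l, g (f^[m] a) := by
  induction j with
  | zero => rfl
  | succ j ih =>
    rw [← ih]
    have h1 := Finset.prod_range_succ (fun m => g (f^[m + j] a)) l
    have h2 := Finset.prod_range_succ' (fun m => g (f^[m + j] a)) l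
    have e : g (f^[l + j] a) = g (f^[0 + j] a) := by
      rw [Nat.add_comm l j, Function.iterate_add_apply, h, Nat.zero_add]
    rw [h1, e] at h2
    have h3 := mul_right_cancel h2
    rw [h3]
    refine Finset.prod_congr rfl fun m _ => ?_
    congr 2
    ring

/-- the weight of a closed staircase to the power of a period of `T` is one -/
lemma wt_pow {n : ℕ} {z : F × L} (h : D.Closed n z) (l : ℕ) (a : L)
    (ha : (D.T z)^[l] a = a) : D.wt n z ^ l = 1 := by
  have h1 : ∏ m ∈ Finset.range l, D.tauP (D.l z.1 z.2 * (D.T z)^[m] a) n z =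
      (∏ m ∈ Finset.range l, D.sigRow ((D.T z)^[m] a) n z) *
        (∏ m ∈ Finset.range l, D.tauP (D.lx n z) n z) *
        ∏ m ∈ Finset.range l, D.tauP (D.l z.1 z.2 * (D.T z)^[m + 1] a) n z := by
    rw [← Finset.prod_mul_distrib, ← Finset.prod_mul_distrib]
    refine Finset.prod_congr rfl fun m _ => ?_
    rw [D.main_rel h, Function.iterate_succ_apply']
  rw [prod_shift (D.T z) (fun b => D.tauP (D.l z.1 z.2 * b) n z) l a ha 1] at h1
  have h2 : (∏ m ∈ Finset.range l, D.sigRow ((D.T z)^[m] a) n z) *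
        (∏ m ∈ Finset.range l, D.tauP (D.lx n z) n z) = 1 := by
    have := h1.symm
    rwa [mul_eq_right] at this
  have h3 : ∏ m ∈ Finset.range l, D.sigRow ((D.T z)^[m] a) n z = D.sigP n z ^ l := by
    calc _ = ∏ m ∈ Finset.range l, ∏ i ∈ Finset.range n,
            D.Psi z i ((D.T z)^[m + (n - 1 - i)] a) := by
          refine Finset.prod_congr rfl fun m _ => ?_
          rw [D.sigRow_eq' h]
          refine Finset.prod_congr rfl fun i _ => ?_
          rw [← Function.iterate_add_apply, Nat.add_comm]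
      _ = ∏ i ∈ Finset.range n, ∏ m ∈ Finset.range l, D.Psi z i ((D.T z)^[m] a) := by
          rw [Finset.prod_comm]
          refine Finset.prod_congr rfl fun i _ => ?_
          exact prod_shift (D.T z) (fun b => D.Psi z i b) l a ha _
      _ = ∏ m ∈ Finset.range l, ∏ i ∈ Finset.range n, D.Psi z i ((D.T z)^[m] a) :=
          Finset.prod_comm
      _ = _ := by
          simp only [D.prod_Psi h, Finset.prod_const, Finset.card_range]
  rw [h3, Finset.prod_const, Finset.card_range, ← mul_pow] at h2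
  rw [wt, mul_comm]
  exact h2

lemma closed_step {n : ℕ} {z : F × L} (h : D.Closed n z) : D.Closed n (D.step z) := by
  obtain ⟨m, rfl⟩ : ∃ m, n = m + 1 := ⟨n - 1, by have := h.pos; omega⟩
  refine ⟨h.pos, ?_, ?_, ?_⟩
  · have := h.P
    rw [MatchedPair.Pr_succ] at this
    rw [MatchedPair.Pr_succ', ← Function.iterate_succ_apply, h.per]
    exact mul_eq_one_comm.mp this
  · have := h.Q
    rw [MatchedPair.Qr_succ] at this
    rw [MatchedPair.Qr_succ', ← Function.iterate_succ_apply, h.per]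
    exact mul_eq_one_comm.mp this
  · rw [← Function.iterate_succ_apply, Function.iterate_succ_apply', h.per]

lemma wt_step {n : ℕ} {z : F × L} (h : D.Closed n z) : D.wt n (D.step z) = D.wt n z := by
  obtain ⟨m, rfl⟩ : ∃ m, n = m + 1 := ⟨n - 1, by have := h.pos; omega⟩
  have e : D.Pr m (D.step z) = z.1⁻¹ := by
    have := h.P
    rw [MatchedPair.Pr_succ] at this
    exact eq_inv_of_mul_eq_one_right this
  have e' : D.Qr m (D.step z) = z.2⁻¹ := by
    have := h.Q
    rw [MatchedPair.Qr_succ] at this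
    exact eq_inv_of_mul_eq_one_right this
  have hx : D.lx m (D.step z) = D.l z.1 z.2 := by
    rw [← MatchedPair.lx_succ, D.lx_closed h]
  rw [wt_eq_wl, wl, ← wt_eq_wl, wt_succ D m z, ← Function.iterate_succ_apply, h.per, e, e', hx,
    D.τ_inv, D.σ_inv, MatchedPair.step_fst, mul_comm]

lemma wt_iterate {n : ℕ} {z : F × L} (h : D.Closed n z) (i : ℕ) :
    D.wt n ((D.step^[i]) z) = D.wt n z ∧ D.Closed n ((D.step^[i]) z) := by
  induction i with
  | zero => exact ⟨rfl, h⟩
  | succ i ih =>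
    rw [Function.iterate_succ_apply']
    exact ⟨by rw [D.wt_step ih.2, ih.1], D.closed_step ih.2⟩

/-- multiplicativity of the weight along closed staircases -/
lemma wt_add_of_closed {n : ℕ} {z : F × L} (h : D.Closed n z) (m : ℕ) :
    D.wt (n + m) z = D.wt n z * D.wt m z := by
  rw [wt_eq_wl, wt_eq_wl, wt_eq_wl]
  induction m with
  | zero => simp [wl]
  | succ m ih =>
    rw [← Nat.add_assoc, wl, ih, wl, MatchedPair.Pr_add, MatchedPair.Qr_add, h.P, h.Q, h.per,
      one_mul, one_mul, Nat.add_comm n m, Function.iterate_add_apply, h.per, mul_assoc]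

lemma closed_mul {n : ℕ} {z : F × L} (h : D.Closed n z) (q : ℕ) :
    D.Pr (n * q) z = 1 ∧ D.Qr (n * q) z = 1 ∧ (D.step^[n * q]) z = z ∧
      D.wt (n * q) z = D.wt n z ^ q := by
  induction q with
  | zero => simp [wt_zero]
  | succ q ih =>
    obtain ⟨h1, h2, h3, h4⟩ := ih
    refine ⟨?_, ?_, ?_, ?_⟩
    · rw [Nat.mul_succ, Nat.add_comm, MatchedPair.Pr_add, h.per, h1, h.P, one_mul]
    · rw [Nat.mul_succ, Nat.add_comm, MatchedPair.Qr_add, h.per, h2, h.Q, one_mul]
    · rw [Nat.mul_succ, Function.iterate_add_apply, h.per, h3]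
    · rw [Nat.mul_succ, Nat.add_comm, D.wt_add_of_closed h, h4, pow_succ, mul_comm]

end Datum

end Pool.Agent.BicHopf
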